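import Pool.Agent.Helper93.HZ.Spec1

/-!
# HZ: GBL, the general blow-up lemma (1.3)
-/

set_option autoImplicit false

open MulAction Pointwise

namespace Pool.Agent.Helper93.HZ

theorem gbl_conn {V κ P : Type} {adj : V → V → Prop} {cl : V → κ} {ρ : P → κ}
    {ss : P → P → Prop} {U : V → V → P → P → Prop}
    (hss3 : ∀ p q, ρ p = ρ q → Relation.ReflTransGen ss p q)
    (hU1 : ∀ x y p q, U x y p q → adj x y ∧ cl x ≠ cl y ∧ ρ p = cl x ∧ ρ q = cl y)
    (hU2 : ∀ x y, adj x y → cl x ≠ cl y → ∃ p q, U x y p q)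
    {x y : V} (h : Relation.ReflTransGen adj x y) :
    ∀ p q, ρ p = cl x → ρ q = cl y →
      Relation.ReflTransGen (fun p q => ss p q ∨ ∃ x y, U x y p q) p q := by
  have hlift : ∀ p q, ρ p = ρ q →
      Relation.ReflTransGen (fun p q => ss p q ∨ ∃ x y, U x y p q) p q := fun p q hpq =>
    Relation.ReflTransGen.mono (fun a b hab => Or.inl hab) _ _ (hss3 p q hpq)
  induction h with
  | refl =>
    intro p q hp hq
    exact hlift p q (hp.trans hq.symm)
  | @tail b c _ hbc ih =>
    intro p q hp hq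
    by_cases hcl : cl b = cl c
    · exact ih p q hp (hq.trans hcl.symm)
    · obtain ⟨p', q', hU⟩ := hU2 b c hbc hcl
      obtain ⟨_, _, h3, h4⟩ := hU1 _ _ _ _ hU
      exact ((ih p p' hp h3).tail (Or.inr ⟨b, c, hU⟩)).trans (hlift q' q (h4.trans hq.symm))

theorem st_GBL : ST_GBL := by
  classical
  intro V κ P adj tri cl ρ ss U dt lt hsymm hconn hSC htri hrot hcl hρ1 hρ2 hss1 hss2 hss3 hSCss
    hU1 hU2 hU3 hU4 hT3 hT2
  refine ⟨?_, ?_⟩
  · intro p q
    obtain ⟨x, hx⟩ := hρ1 p
    obtain ⟨y, hy⟩ := hρ1 q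
    exact gbl_conn hss3 hU1 hU2 (hconn x y) p q hx.symm hy.symm
  · intro H _ c hc1 hc2
    -- step 1: normalise `c` on `ss`
    obtain ⟨g, hg⟩ := hSCss H c (fun p q hpq => hc1 p q (Or.inl hpq)) (fun _ _ _ h => h.elim)
    set d : P → P → H := fun p q => g p * c p q * (g q)⁻¹ with hd
    have hd1 : ∀ p q, (ss p q ∨ ∃ x y, U x y p q) → d p q * d q p = 1 := by
      intro p q h
      have h1 := hc1 p q h
      calc d p q * d q p = g p * (c p q * c q p) * (g p)⁻¹ := by simp only [hd]; group
        _ = 1 := by rw [h1]; group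
    have hd2 : ∀ p q r, (dt p q r ∨ lt p q r) → d p q * d q r * d r p = 1 := by
      intro p q r h
      have h1 := hc2 p q r h
      calc d p q * d q r * d r p = g p * (c p q * c q r * c r p) * (g p)⁻¹ := by
            simp only [hd]; group
        _ = 1 := by rw [h1]; group
    have hdss : ∀ p q, ss p q → d p q = 1 := by
      intro p q h
      simp only [hd]
      rw [hg p q h]
      group
    have hdU : ∀ x y p q, U x y p q → d p q = (d q p)⁻¹ := fun x y p q h =>
      eq_inv_of_mul_eq_one_left (hd1 p q (Or.inr ⟨x, y, h⟩))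
    -- step 2: `d` is constant on the cells
    have hconst : ∀ x y p q p' q', U x y p q → U x y p' q' → d p q = d p' q' := by
      intro x y p q p' q' h h'
      have h1 := hU4 x y p q p' q' h h'
      have h2 : ∀ a b : P × P, Relation.ReflTransGen (fun a b : P × P => U x y a.1 a.2 ∧
          U x y b.1 b.2 ∧ ((a.2 = b.2 ∧ ss a.1 b.1 ∧ dt a.1 b.1 a.2) ∨
            (a.1 = b.1 ∧ ss a.2 b.2 ∧ dt a.2 b.2 a.1))) a b → d a.1 a.2 = d b.1 b.2 := by
        intro a b hab
        induction hab with
        | refl => rfl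
        | @tail b e _ hbe ih =>
          rw [ih]
          obtain ⟨hb, he, hcase⟩ := hbe
          rcases hcase with ⟨h3, h4, h5⟩ | ⟨h3, h4, h5⟩
          · have h6 := hd2 _ _ _ (Or.inl h5)
            rw [hdss _ _ h4, one_mul] at h6
            rw [hdU _ _ _ _ hb, ← h3]
            exact (eq_inv_of_mul_eq_one_left h6).symm
          · have h6 := hd2 _ _ _ (Or.inl h5)
            rw [hdss _ _ h4, one_mul] at h6
            rw [hdU _ _ _ _ he, ← h3]
            exact eq_inv_of_mul_eq_one_right h6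
      exact h2 (p, q) (p', q') h1
    -- step 3: the cocycle on `(adj, tri)`
    set cK : V → V → H := fun x y => if h : ∃ pq : P × P, U x y pq.1 pq.2 then
      d h.choose.1 h.choose.2 else 1 with hcK
    have hcK1 : ∀ x y p q, U x y p q → cK x y = d p q := by
      intro x y p q h
      have h1 : ∃ pq : P × P, U x y pq.1 pq.2 := ⟨(p, q), h⟩
      simp only [hcK]
      rw [dif_pos h1]
      exact hconst x y _ _ _ _ h1.choose_spec h
    have hcK2 : ∀ x y, cl x = cl y → cK x y = 1 := by
      intro x y h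
      simp only [hcK]
      rw [dif_neg]
      rintro ⟨⟨p, q⟩, hpq⟩
      exact (hU1 _ _ _ _ hpq).2.1 h
    obtain ⟨f, hf⟩ := hSC H cK (by
      intro x y hxy
      by_cases hxy' : cl x = cl y
      · rw [hcK2 x y hxy', hcK2 y x hxy'.symm, one_mul]
      · obtain ⟨p, q, hU⟩ := hU2 x y hxy hxy'
        rw [hcK1 x y p q hU, hcK1 y x q p (hU3 _ _ _ _ hU)]
        exact hd1 p q (Or.inr ⟨x, y, hU⟩)) (by
      intro x y z hxyz
      by_cases h1 : cl x = cl y
      · by_cases h2 : cl y = cl z
        · rw [hcK2 x y h1, hcK2 y z h2, hcK2 z x (h1.trans h2).symm, one_mul, one_mul]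
        · obtain ⟨p, r, hU, hU'⟩ := hT2 x y z hxyz h1 h2
          rw [hcK2 x y h1, hcK1 y z p r hU', hcK1 z x r p (hU3 _ _ _ _ hU), one_mul]
          exact hd1 p r (Or.inr ⟨x, z, hU⟩)
      · by_cases h2 : cl y = cl z
        · have h3 : cl z ≠ cl x := fun h => h1 (h2.trans h).symm
          obtain ⟨p, r, hU, hU'⟩ := hT2 y z x (hrot _ _ _ hxyz) h2 h3
          rw [hcK2 y z h2, hcK1 x y r p (hU3 _ _ _ _ hU), hcK1 z x p r hU', mul_one]
          exact hd1 r p (Or.inr ⟨x, y, hU3 _ _ _ _ hU⟩)
        · by_cases h3 : cl z = cl x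
          · obtain ⟨p, r, hU, hU'⟩ := hT2 z x y (hrot _ _ _ (hrot _ _ _ hxyz)) h3 h1
            rw [hcK2 z x h3, hcK1 x y p r hU', hcK1 y z r p (hU3 _ _ _ _ hU), mul_one]
            exact hd1 p r (Or.inr ⟨x, y, hU'⟩)
          · obtain ⟨p, q, r, ha, hb, hc, hl⟩ := hT3 x y z hxyz h1 h2 (fun h => h3 h.symm)
            rw [hcK1 x y p q ha, hcK1 y z q r hb, hcK1 z x r p (hU3 _ _ _ _ hc)]
            exact hd2 p q r (Or.inr hl))
    -- step 4: `f` is constant on the classes
    have hfc : ∀ x y, cl x = cl y → f x = f y := by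
      intro x y h
      have h1 := hcl x y h
      clear h
      induction h1 with
      | refl => rfl
      | @tail b e _ hbe ih =>
        rw [ih]
        have h2 := hf b e hbe.1
        rw [hcK2 b e hbe.2] at h2
        exact (eq_of_inv_mul_eq_one h2.symm)
    choose rep hrep using hρ1
    refine ⟨fun p => f (rep p) * g p, ?_⟩
    have hback : ∀ p q, c p q = (g p)⁻¹ * d p q * g q := by
      intro p q
      simp only [hd]
      group
    intro p q hpq
    rw [hback]
    have h1 : d p q = (f (rep p))⁻¹ * f (rep q) := by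
      rcases hpq with h | ⟨x, y, h⟩
      · rw [hdss p q h]
        have h2 : f (rep p) = f (rep q) :=
          hfc _ _ (by rw [hrep, hrep]; exact hss2 p q h)
        rw [h2]
        group
      · obtain ⟨h2, _, h3, h4⟩ := hU1 x y p q h
        rw [← hcK1 x y p q h, hf x y h2]
        have e1 : f x = f (rep p) := hfc _ _ (by rw [hrep]; exact h3.symm)
        have e2 : f y = f (rep q) := hfc _ _ (by rw [hrep]; exact h4.symm)
        rw [e1, e2]
    rw [h1]
    group

end Pool.Agent.Helper93.HZ
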