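import Pool.Agent.Helper93.HZ.L2

/-!
# HZ: L2B, monotonicity and invariance of the von Neumann dimension
-/

set_option autoImplicit false

open MulAction Pointwise
open scoped InnerProductSpace

namespace Pool.Agent.Helper93.HZ

section hilbert

variable {H : Type} [NormedAddCommGroup H] [InnerProductSpace ℝ H]

theorem l2b_infDist (N : Submodule ℝ H) [N.HasOrthogonalProjection] (x : H) :
    Metric.infDist x (N : Set H) = ‖x - N.starProjection x‖ := by
  apply le_antisymm
  · have := Metric.infDist_le_dist_of_mem (x := x) (N.starProjection_apply_mem x)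
    rwa [dist_eq_norm] at this
  · rw [Metric.le_infDist ⟨0, N.zero_mem⟩]
    intro y hy
    rw [dist_eq_norm, N.starProjection_minimal x]
    have hb : BddBelow (Set.range fun z : N => ‖x - z‖) :=
      ⟨0, by rintro _ ⟨z, rfl⟩; exact norm_nonneg _⟩
    exact ciInf_le hb ⟨y, hy⟩

theorem l2b_one_sub (N : Submodule ℝ H) [N.HasOrthogonalProjection] {x : H} (hx : ‖x‖ = 1) :
    1 - Metric.infDist x (N : Set H) ^ 2 = ‖N.starProjection x‖ ^ 2 := by
  have h1 := Submodule.norm_sq_eq_add_norm_sq_starProjection x N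
  rw [Submodule.starProjection_orthogonal_val, hx] at h1
  rw [l2b_infDist]
  linarith

end hilbert

section shift

variable {G : Type} [Group G] {Y : Type} [MulAction G Y]

theorem l2b_mem_sh (g : G) (f : HS Y) : Memℓp (fun y => f (g • y)) 2 := by
  have h := lp.memℓp f
  rw [memℓp_gen_iff (by norm_num)] at h ⊢
  exact h.comp_injective (MulAction.injective g)

/-- the shift `f ↦ f (g • ·)` -/
noncomputable def l2b_sh (g : G) : HS Y →ₗᵢ[ℝ] HS Y where
  toFun f := ⟨fun y => f (g • y), l2b_mem_sh g f⟩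
  map_add' f f' := by
    ext y
    rfl
  map_smul' c f := by
    ext y
    rfl
  norm_map' f := by
    change ‖(⟨fun y => f (g • y), l2b_mem_sh g f⟩ : HS Y)‖ = ‖f‖
    rw [lp.norm_eq_tsum_rpow (by norm_num), lp.norm_eq_tsum_rpow (by norm_num)]
    congr 1
    exact Equiv.tsum_eq (MulAction.toPerm g) (fun y => ‖f y‖ ^ (2 : ENNReal).toReal)

theorem l2b_sh_apply (g : G) (f : HS Y) (y : Y) : l2b_sh g f y = f (g • y) := rfl

theorem l2b_sh_inv (g : G) (f : HS Y) : l2b_sh g (l2b_sh g⁻¹ f) = f := by
  ext y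
  rw [l2b_sh_apply, l2b_sh_apply, inv_smul_smul]

theorem l2b_eq_sh {g : G} {f f' : HS Y} (h : ∀ y, f' y = f (g • y)) : f' = l2b_sh g f := by
  ext y
  exact h y

theorem l2b_sh_mem {N : Submodule ℝ (HS Y)} (hN : InvS G N) (g : G) {f : HS Y} (hf : f ∈ N) :
    l2b_sh g f ∈ N := hN g f _ (fun _ => rfl) hf

theorem l2b_proj_sh {N : Submodule ℝ (HS Y)} [N.HasOrthogonalProjection] (hN : InvS G N) (g : G)
    (f : HS Y) : N.starProjection (l2b_sh g f) = l2b_sh g (N.starProjection f) := by
  apply Submodule.eq_starProjection_of_mem_of_inner_eq_zero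
  · exact l2b_sh_mem hN g (N.starProjection_apply_mem f)
  · intro w hw
    rw [← l2b_sh_inv g w, ← map_sub, LinearIsometry.inner_map_map]
    exact N.starProjection_inner_eq_zero f _ (l2b_sh_mem hN g⁻¹ hw)

open Classical in
/-- the delta functions -/
noncomputable def l2b_dl (y : Y) : HS Y := lp.single 2 y (1 : ℝ)

open Classical in
theorem l2b_dl_apply (y z : Y) : l2b_dl y z = if z = y then 1 else 0 := by
  unfold l2b_dl
  rw [lp.single_apply]
  by_cases h : z = y
  · subst h
    simp
  · rw [if_neg h, Pi.single_eq_of_ne h]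

theorem l2b_norm_dl (y : Y) : ‖(l2b_dl y : HS Y)‖ = 1 := by
  classical
  unfold l2b_dl
  rw [lp.norm_single (by norm_num)]
  simp

theorem l2b_inner_dl (y : Y) (f : HS Y) : ⟪(l2b_dl y : HS Y), f⟫_ℝ = f y := by
  classical
  unfold l2b_dl
  rw [lp.inner_single_left]
  simp

theorem l2b_sh_dl (g : G) (y : Y) : l2b_sh g (l2b_dl (g • y)) = l2b_dl y := by
  classical
  ext z
  rw [l2b_sh_apply, l2b_dl_apply, l2b_dl_apply]
  by_cases h : z = y
  · subst h
    simp
  · rw [if_neg h, if_neg]
    intro h1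
    exact h (MulAction.injective g h1)

theorem l2b_dimG (N : Submodule ℝ (HS Y)) [N.HasOrthogonalProjection]
    [Fintype (Quotient (orbitRel G Y))] :
    dimG G N = ∑ o : Quotient (orbitRel G Y), ‖N.starProjection (l2b_dl o.out)‖ ^ 2 := by
  unfold dimG
  rw [finsum_eq_sum_of_fintype]
  refine Finset.sum_congr rfl fun o _ => ?_
  exact l2b_one_sub N (l2b_norm_dl o.out)

theorem l2b_norm_proj {N : Submodule ℝ (HS Y)} [N.HasOrthogonalProjection] (hN : InvS G N)
    (g : G) (y : Y) : ‖N.starProjection (l2b_dl (g • y))‖ = ‖N.starProjection (l2b_dl y)‖ := by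
  rw [← l2b_sh_dl g y, l2b_proj_sh hN, LinearIsometry.norm_map]

theorem l2b_le {N N' : Submodule ℝ (HS Y)} [N.HasOrthogonalProjection]
    [N'.HasOrthogonalProjection] (h : N ≤ N') (f : HS Y) :
    ‖N.starProjection f‖ ^ 2 + ‖N'.starProjection f - N.starProjection f‖ ^ 2
      = ‖N'.starProjection f‖ ^ 2 := by
  have h1 : N.starProjection (N'.starProjection f) = N.starProjection f := by
    apply Submodule.eq_starProjection_of_mem_of_inner_eq_zero
    · exact N.starProjection_apply_mem f
    · intro w hw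
      have h2 := N.starProjection_inner_eq_zero f w hw
      have h3 := N'.starProjection_inner_eq_zero f w (h hw)
      rw [inner_sub_left] at h2 h3 ⊢
      linarith
  have h4 := Submodule.norm_sq_eq_add_norm_sq_starProjection (N'.starProjection f) N
  rw [Submodule.starProjection_orthogonal_val, h1] at h4
  exact h4.symm

theorem l2b_part1 [Finite (Quotient (orbitRel G Y))] (N N' : Submodule ℝ (HS Y))
    (hc : IsClosed (N : Set (HS Y))) (hc' : IsClosed (N' : Set (HS Y)))
    (hi : InvS G N) (hi' : InvS G N') (h : N ≤ N') :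
    dimG G N ≤ dimG G N' ∧ (dimG G N' ≤ dimG G N → N = N') := by
  have : CompleteSpace N := hc.completeSpace_coe
  have : CompleteSpace N' := hc'.completeSpace_coe
  have := Fintype.ofFinite (Quotient (orbitRel G Y))
  have hle : ∀ f : HS Y, ‖N.starProjection f‖ ^ 2 ≤ ‖N'.starProjection f‖ ^ 2 := by
    intro f
    have := l2b_le h f
    nlinarith [sq_nonneg ‖N'.starProjection f - N.starProjection f‖]
  rw [l2b_dimG (G := G) N, l2b_dimG (G := G) N']
  refine ⟨Finset.sum_le_sum fun o _ => hle _, fun h1 => ?_⟩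
  have h2 : ∀ o : Quotient (orbitRel G Y), ‖N.starProjection (l2b_dl o.out)‖ ^ 2
      = ‖N'.starProjection (l2b_dl o.out)‖ ^ 2 := by
    have h3 := le_antisymm h1 (Finset.sum_le_sum fun o _ => hle _)
    intro o
    exact (Finset.sum_eq_sum_iff_of_le fun o _ => hle _).1 h3.symm o (Finset.mem_univ o)
  have h4 : ∀ y : Y, N'.starProjection (l2b_dl y) = N.starProjection (l2b_dl y) := by
    intro y
    obtain ⟨g, hg⟩ : ∃ g : G, g • (Quotient.mk (orbitRel G Y) y).out = y := by
      have : (orbitRel G Y).r y (Quotient.mk (orbitRel G Y) y).out :=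
        (orbitRel G Y).symm' (Quotient.exact (Quotient.out_eq (Quotient.mk (orbitRel G Y) y)))
      exact this
    have h5 := h2 (Quotient.mk (orbitRel G Y) y)
    have h6 := l2b_norm_proj hi g (Quotient.mk (orbitRel G Y) y).out
    have h7 := l2b_norm_proj hi' g (Quotient.mk (orbitRel G Y) y).out
    rw [hg] at h6 h7
    rw [← h6, ← h7] at h5
    have h8 := l2b_le h (l2b_dl y)
    rw [h5] at h8
    have h9 : ‖N'.starProjection (l2b_dl y) - N.starProjection (l2b_dl y)‖ ^ 2 = 0 := by
      linarith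
    rw [sq_eq_zero_iff, norm_eq_zero, sub_eq_zero] at h9
    exact h9
  apply le_antisymm h
  intro f hf
  have h5 : N.starProjection f = f := by
    ext y
    rw [← l2b_inner_dl, ← l2b_inner_dl]
    rw [← Submodule.inner_starProjection_left_eq_right, ← h4,
      Submodule.inner_starProjection_left_eq_right,
      Submodule.starProjection_eq_self_iff.2 hf]
  rw [← h5]
  exact N.starProjection_apply_mem f

theorem l2b_compl [Finite (Quotient (orbitRel G Y))] (N : Submodule ℝ (HS Y))
    [N.HasOrthogonalProjection] :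
    dimG G N + dimG G Nᗮ = Nat.card (Quotient (orbitRel G Y)) := by
  have := Fintype.ofFinite (Quotient (orbitRel G Y))
  rw [l2b_dimG (G := G) N, l2b_dimG (G := G) Nᗮ, ← Finset.sum_add_distrib, Nat.card_eq_fintype_card]
  have h1 : ∀ o : Quotient (orbitRel G Y), ‖N.starProjection (l2b_dl o.out)‖ ^ 2
      + ‖Nᗮ.starProjection (l2b_dl o.out)‖ ^ 2 = 1 := by
    intro o
    rw [← Submodule.norm_sq_eq_add_norm_sq_starProjection, l2b_norm_dl, one_pow]
  simp only [h1]
  simp

theorem l2b_part2 (hA : ST_L2A) (hfree : ∀ (g : G) (y : Y), g • y = y → g = 1)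
    [Finite (Quotient (orbitRel G Y))] (Φ Ψ : HS Y →L[ℝ] HS Y) (hΦ : EqvO G Φ)
    (h1 : ∀ f, Ψ (Φ f) = f) (h2 : ∀ f, Φ (Ψ f) = f) (N : Submodule ℝ (HS Y))
    (hc : IsClosed (N : Set (HS Y))) (hi : InvS G N) :
    dimG G (N.map Φ.toLinearMap) = dimG G N := by
  have : CompleteSpace N := hc.completeSpace_coe
  have hc' : IsClosed (N.map Φ.toLinearMap : Set (HS Y)) := by
    have e : (N.map Φ.toLinearMap : Set (HS Y)) = Ψ ⁻¹' (N : Set (HS Y)) := by
      ext f
      constructor
      · rintro ⟨n, hn, rfl⟩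
        change Ψ (Φ n) ∈ N
        rw [h1]
        exact hn
      · intro hf
        exact ⟨Ψ f, hf, h2 f⟩
    rw [e]
    exact hc.preimage Ψ.continuous
  have : CompleteSpace (N.map Φ.toLinearMap) := hc'.completeSpace_coe
  set T : HS Y →L[ℝ] HS Y := Φ.comp N.starProjection with hT
  have hTE : EqvO G T := by
    intro g f f' hff x
    rw [l2b_eq_sh hff]
    change Φ (N.starProjection (l2b_sh g f)) x = Φ (N.starProjection f) (g • x)
    rw [l2b_proj_sh hi]
    exact hΦ g _ _ (fun _ => rfl) x
  have h3 := hA G Y Y hfree hfree inferInstance inferInstance T hTE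
  have e1 : LinearMap.ker T.toLinearMap = Nᗮ := by
    ext f
    rw [LinearMap.mem_ker]
    change Φ (N.starProjection f) = 0 ↔ _
    rw [← Submodule.starProjection_apply_eq_zero_iff]
    constructor
    · intro h
      rw [← h1 (N.starProjection f), h, map_zero]
    · intro h
      rw [h, map_zero]
  have e2 : LinearMap.ker (ContinuousLinearMap.adjoint T).toLinearMap
      = (N.map Φ.toLinearMap)ᗮ := by
    ext f
    rw [LinearMap.mem_ker, Submodule.mem_orthogonal]
    change ContinuousLinearMap.adjoint T f = 0 ↔ _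
    constructor
    · rintro h _ ⟨n, hn, rfl⟩
      change ⟪Φ n, f⟫_ℝ = 0
      have e3 : Φ n = T n := by
        rw [hT]
        change Φ n = Φ (N.starProjection n)
        rw [Submodule.starProjection_eq_self_iff.2 hn]
      rw [e3, ← ContinuousLinearMap.adjoint_inner_right, h, inner_zero_right]
    · intro h
      apply ext_inner_left ℝ
      intro w
      rw [ContinuousLinearMap.adjoint_inner_right, inner_zero_right]
      exact h _ ⟨_, N.starProjection_apply_mem w, rfl⟩
  rw [e1, e2, sub_self] at h3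
  have h4 := l2b_compl (G := G) N
  have h5 := l2b_compl (G := G) (N.map Φ.toLinearMap)
  linarith

end shift

theorem st_L2B (hA : ST_L2A) : ST_L2B := by
  intro G _ Y _ hfree hfin
  refine ⟨fun N N' hc hc' hi hi' h => l2b_part1 N N' hc hc' hi hi' h, ?_⟩
  intro Φ Ψ hΦ _ h1 h2 N hc hi
  exact l2b_part2 hA hfree Φ Ψ hΦ h1 h2 N hc hi

end Pool.Agent.Helper93.HZ
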