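import Pool.Agent.Helper74.HZ.L2B

/-!
# HZ: L2C, the dimension of the functions constant along the edges
-/

set_option autoImplicit false

open MulAction Pointwise
open scoped InnerProductSpace

namespace Pool.Agent.Helper93.HZ

section

variable {G : Type} [Group G] {Y X : Type} [MulAction G Y] [MulAction G X]
  {s t : Y → Option X}

abbrev l2c_st (s t : Y → Option X) (p q : X) : Prop := stepR (Set.univ : Set Y) s t p q

abbrev l2c_co (s t : Y → Option X) (p : X) : Set X := compR (Set.univ : Set Y) s t p

abbrev l2c_go (s t : Y → Option X) (p : X) : Prop := goodR (Set.univ : Set Y) s t p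

theorem l2c_symm {p q : X} (h : l2c_st s t p q) : l2c_st s t q p := by
  obtain ⟨y, hy, h⟩ := h
  exact ⟨y, hy, h.symm⟩

theorem l2c_mem_self (p : X) : p ∈ l2c_co s t p := Relation.ReflTransGen.refl

theorem l2c_co_symm {p q : X} (h : q ∈ l2c_co s t p) : p ∈ l2c_co s t q := by
  have h' : Relation.ReflTransGen (l2c_st s t) p q := h
  change Relation.ReflTransGen (l2c_st s t) q p
  induction h' with
  | refl => exact Relation.ReflTransGen.refl
  | tail _ h2 ih => exact Relation.ReflTransGen.head (l2c_symm h2) (ih (by assumption))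

theorem l2c_co_eq {p q : X} (h : q ∈ l2c_co s t p) : l2c_co s t q = l2c_co s t p := by
  have h' := l2c_co_symm h
  ext r
  constructor
  · intro hr
    exact Relation.ReflTransGen.trans h hr
  · intro hr
    exact Relation.ReflTransGen.trans h' hr

theorem l2c_st_smul (hG : GrH (Set.univ : Set Y) s t G (Set.univ : Set X)) (g : G) {p q : X}
    (h : l2c_st s t p q) : l2c_st s t (g • p) (g • q) := by
  obtain ⟨y, hy, h⟩ := h
  refine ⟨g • y, trivial, ?_⟩
  rcases h with ⟨h1, h2⟩ | ⟨h1, h2⟩
  · left
    rw [hG.sE g y trivial, hG.tE g y trivial, h1, h2]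
    exact ⟨rfl, rfl⟩
  · right
    rw [hG.sE g y trivial, hG.tE g y trivial, h1, h2]
    exact ⟨rfl, rfl⟩

theorem l2c_co_smul' (hG : GrH (Set.univ : Set Y) s t G (Set.univ : Set X)) (g : G) {p q : X}
    (h : q ∈ l2c_co s t p) : g • q ∈ l2c_co s t (g • p) := by
  have h' : Relation.ReflTransGen (l2c_st s t) p q := h
  change Relation.ReflTransGen (l2c_st s t) (g • p) (g • q)
  exact h'.lift (fun x => g • x) fun a b hab => l2c_st_smul hG g hab

theorem l2c_co_smul (hG : GrH (Set.univ : Set Y) s t G (Set.univ : Set X)) (g : G) (p : X) :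
    l2c_co s t (g • p) = g • l2c_co s t p := by
  ext q
  rw [Set.mem_smul_set_iff_inv_smul_mem]
  constructor
  · intro h
    have := l2c_co_smul' hG g⁻¹ h
    rwa [inv_smul_smul] at this
  · intro h
    have := l2c_co_smul' hG g h
    rwa [smul_inv_smul] at this

theorem l2c_go_smul (hG : GrH (Set.univ : Set Y) s t G (Set.univ : Set X)) (g : G) {p : X}
    (h : l2c_go s t p) : l2c_go s t (g • p) := by
  obtain ⟨h1, h2⟩ := h
  refine ⟨?_, ?_⟩
  · have e : compR (Set.univ : Set Y) s t (g • p) = g • compR (Set.univ : Set Y) s t p :=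
      l2c_co_smul hG g p
    rw [e]
    exact h1.smul_set
  · intro q hq y _
    have hq' : g⁻¹ • q ∈ l2c_co s t p := by
      have := l2c_co_smul' hG g⁻¹ hq
      rwa [inv_smul_smul] at this
    have h3 := h2 _ hq' (g⁻¹ • y) trivial
    rw [hG.sE g⁻¹ y trivial, hG.tE g⁻¹ y trivial] at h3
    constructor
    · intro hs
      have := h3.1 (by rw [hs]; rfl)
      rwa [Option.isSome_map] at this
    · intro ht
      have := h3.2 (by rw [ht]; rfl)
      rwa [Option.isSome_map] at this

theorem l2c_go_of_mem {p q : X} (hq : q ∈ l2c_co s t p) (h : l2c_go s t p) : l2c_go s t q := by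
  have e : compR (Set.univ : Set Y) s t q = compR (Set.univ : Set Y) s t p := l2c_co_eq hq
  unfold l2c_go goodR
  rw [e]
  exact h

variable {N : Submodule ℝ (HS X)}

theorem l2c_const (hN : ∀ f : HS X, f ∈ N ↔ ∀ y : Y,
      (s y).elim 0 (fun p => f p) = (t y).elim 0 (fun p => f p)) {f : HS X} (hf : f ∈ N)
    {p q : X} (hq : q ∈ l2c_co s t p) : f q = f p := by
  have h' : Relation.ReflTransGen (l2c_st s t) p q := hq
  have hs : ∀ a b, l2c_st s t a b → f b = f a := by
    rintro a b ⟨y, _, h⟩
    have h1 := (hN f).1 hf y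
    rcases h with ⟨h2, h3⟩ | ⟨h2, h3⟩
    · rw [h2, h3] at h1
      exact h1.symm
    · rw [h2, h3] at h1
      exact h1
  induction h' with
  | refl => rfl
  | tail _ h2 ih => rw [hs _ _ h2, ih (by assumption)]

theorem l2c_bad (hN : ∀ f : HS X, f ∈ N ↔ ∀ y : Y,
      (s y).elim 0 (fun p => f p) = (t y).elim 0 (fun p => f p)) {f : HS X} (hf : f ∈ N)
    {p : X} (hp : ¬ l2c_go s t p) : f p = 0 := by
  by_cases hfin : (l2c_co s t p).Finite
  · have h1 : ¬ ∀ q ∈ l2c_co s t p, ∀ y ∈ (Set.univ : Set Y),
        (s y = some q → (t y).isSome) ∧ (t y = some q → (s y).isSome) := fun h => hp ⟨hfin, h⟩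
    push Not at h1
    obtain ⟨q, hq, y, _, h2⟩ := h1
    rw [← l2c_const hN hf hq]
    have h3 := (hN f).1 hf y
    by_cases h4 : s y = some q → (t y).isSome
    · obtain ⟨h5, h6⟩ := h2 h4
      rw [h5] at h3
      have h7 : s y = none := by
        simpa using h6
      rw [h7] at h3
      exact h3.symm
    · push Not at h4
      obtain ⟨h5, h6⟩ := h4
      rw [h5] at h3
      have h7 : t y = none := by
        simpa using h6
      rw [h7] at h3
      exact h3
  · by_contra hne
    apply hfin
    have h := lp.memℓp f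
    rw [memℓp_gen_iff (by norm_num)] at h
    have h1 := h.tendsto_cofinite_zero
    have hpos : 0 < ‖f p‖ ^ (2 : ENNReal).toReal :=
      Real.rpow_pos_of_pos (norm_pos_iff.2 hne) _
    have h2 := h1.eventually (gt_mem_nhds hpos)
    rw [Filter.eventually_cofinite] at h2
    refine h2.subset fun q hq => ?_
    simp only [Set.mem_ofPred_eq]
    rw [l2c_const hN hf hq]
    exact lt_irrefl _

open Classical in
/-- the normalised indicator of a finite set -/
noncomputable def l2c_ind (C : Finset X) : HS X := ∑ q ∈ C, l2b_dl q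

open Classical in
theorem l2c_ind_apply (C : Finset X) (p : X) : l2c_ind C p = if p ∈ C then 1 else 0 := by
  unfold l2c_ind
  have h1 : (∑ q ∈ C, l2b_dl q : HS X) p = ∑ q ∈ C, (l2b_dl q : HS X) p := by
    rw [lp.coeFn_sum, Finset.sum_apply]
  rw [h1]
  simp only [l2b_dl_apply]
  rw [Finset.sum_ite_eq]

theorem l2c_inner_ind (C : Finset X) (f : HS X) : ⟪l2c_ind C, f⟫_ℝ = ∑ q ∈ C, f q := by
  unfold l2c_ind
  rw [sum_inner]
  exact Finset.sum_congr rfl fun q _ => l2b_inner_dl q f

theorem l2c_proj_good (hN : ∀ f : HS X, f ∈ N ↔ ∀ y : Y,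
      (s y).elim 0 (fun p => f p) = (t y).elim 0 (fun p => f p)) [N.HasOrthogonalProjection]
    {p : X} (hp : l2c_go s t p) :
    ‖N.starProjection (l2b_dl p)‖ ^ 2 = ((l2c_co s t p).ncard : ℝ)⁻¹ := by
  classical
  obtain ⟨hfin, hgo⟩ := hp
  set C : Finset X := hfin.toFinset with hC
  have hmem : ∀ q, q ∈ C ↔ q ∈ l2c_co s t p := fun q => by rw [hC, Set.Finite.mem_toFinset]
  have hcard : (l2c_co s t p).ncard = C.card := by
    rw [hC, Set.ncard_eq_toFinset_card _ hfin]
  have hpC : p ∈ C := (hmem p).2 (l2c_mem_self p)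
  have hpos : (0 : ℝ) < C.card := by
    have := Finset.card_pos.2 ⟨p, hpC⟩
    exact_mod_cast this
  have hindN : l2c_ind C ∈ N := by
    rw [hN]
    intro y
    have hst : ∀ a b, s y = some a → t y = some b → (a ∈ C ↔ b ∈ C) := by
      intro a b ha hb
      rw [hmem, hmem]
      have hab : l2c_st s t a b := ⟨y, trivial, Or.inl ⟨ha, hb⟩⟩
      constructor
      · intro h
        exact Relation.ReflTransGen.tail h hab
      · intro h
        exact Relation.ReflTransGen.tail h (l2c_symm hab)
    rcases hs : s y with _ | a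
    · rcases ht : t y with _ | b
      · rfl
      · have hb : b ∉ C := by
          intro hb
          have := (hgo b ((hmem b).1 hb) y trivial).2 ht
          rw [hs] at this
          exact absurd this (by simp)
        simp only [Option.elim_none, Option.elim_some]
        rw [l2c_ind_apply, if_neg hb]
    · rcases ht : t y with _ | b
      · have ha : a ∉ C := by
          intro ha
          have := (hgo a ((hmem a).1 ha) y trivial).1 hs
          rw [ht] at this
          exact absurd this (by simp)
        simp only [Option.elim_none, Option.elim_some]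
        rw [l2c_ind_apply, if_neg ha]
      · simp only [Option.elim_some]
        rw [l2c_ind_apply, l2c_ind_apply]
        have := hst a b hs ht
        by_cases ha : a ∈ C
        · rw [if_pos ha, if_pos (this.1 ha)]
        · rw [if_neg ha, if_neg (fun hb => ha (this.2 hb))]
  have hproj : N.starProjection (l2b_dl p) = (C.card : ℝ)⁻¹ • l2c_ind C := by
    apply Submodule.eq_starProjection_of_mem_of_inner_eq_zero
    · exact N.smul_mem _ hindN
    · intro w hw
      rw [inner_sub_left, l2b_inner_dl, real_inner_smul_left, l2c_inner_ind]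
      have h0 : ∀ q ∈ C, w q = w p := fun q hq => l2c_const hN hw ((hmem q).1 hq)
      have h1 : ∑ q ∈ C, w q = C.card * w p := by
        refine (Finset.sum_congr rfl h0).trans ?_
        rw [Finset.sum_const, nsmul_eq_mul]
      rw [h1]
      field_simp
      ring
  have h2 : ‖N.starProjection (l2b_dl p)‖ ^ 2
      = ⟪(l2b_dl p : HS X), N.starProjection (l2b_dl p)⟫_ℝ := by
    have h3 := N.starProjection_inner_eq_zero (l2b_dl p) _ (N.starProjection_apply_mem (l2b_dl p))
    rw [inner_sub_left, real_inner_self_eq_norm_sq] at h3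
    linarith
  rw [h2, l2b_inner_dl, hproj, hcard]
  have h4 : ((C.card : ℝ)⁻¹ • l2c_ind C : HS X) p = (C.card : ℝ)⁻¹ * l2c_ind C p := rfl
  rw [h4, l2c_ind_apply, if_pos hpC, mul_one]

theorem l2c_proj_bad (hN : ∀ f : HS X, f ∈ N ↔ ∀ y : Y,
      (s y).elim 0 (fun p => f p) = (t y).elim 0 (fun p => f p)) [N.HasOrthogonalProjection]
    {p : X} (hp : ¬ l2c_go s t p) :
    ‖N.starProjection (l2b_dl p)‖ ^ 2 = 0 := by
  have h2 : ‖N.starProjection (l2b_dl p)‖ ^ 2
      = ⟪(l2b_dl p : HS X), N.starProjection (l2b_dl p)⟫_ℝ := by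
    have h3 := N.starProjection_inner_eq_zero (l2b_dl p) _ (N.starProjection_apply_mem (l2b_dl p))
    rw [inner_sub_left, real_inner_self_eq_norm_sq] at h3
    linarith
  rw [h2, l2b_inner_dl]
  exact l2c_bad hN (N.starProjection_apply_mem (l2b_dl p)) hp

theorem l2c_closed (hN : ∀ f : HS X, f ∈ N ↔ ∀ y : Y,
      (s y).elim 0 (fun p => f p) = (t y).elim 0 (fun p => f p)) : IsClosed (N : Set (HS X)) := by
  have hev : ∀ p : X, Continuous (fun f : HS X => f p) := by
    intro p
    have h1 : (fun f : HS X => f p) = fun f : HS X => ⟪(l2b_dl p : HS X), f⟫_ℝ := by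
      funext f
      exact (l2b_inner_dl p f).symm
    rw [h1]
    exact continuous_const.inner continuous_id
  have hev' : ∀ o : Option X, Continuous (fun f : HS X => o.elim 0 (fun p => f p)) := by
    intro o
    cases o with
    | none => exact continuous_const
    | some p => exact hev p
  have e : (N : Set (HS X)) = ⋂ y : Y, {f : HS X |
      (s y).elim 0 (fun p => f p) = (t y).elim 0 (fun p => f p)} := by
    ext f
    rw [Set.mem_iInter]
    exact hN f
  rw [e]
  exact isClosed_iInter fun y => isClosed_eq (hev' _) (hev' _)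

theorem l2c_rep (x : X) : ∃ g : G, g • (Quotient.mk (orbitRel G X) x).out = x := by
  have : (orbitRel G X).r x (Quotient.mk (orbitRel G X) x).out :=
    (orbitRel G X).symm' (Quotient.exact (Quotient.out_eq (Quotient.mk (orbitRel G X) x)))
  exact this

theorem l2c_finite (hG : GrH (Set.univ : Set Y) s t G (Set.univ : Set X)) :
    Finite (Quotient (orbitRel G X)) := by
  have h1 := hG.finX
  unfold FinOrb at h1
  have : Finite ↥((fun x : X => orbit G x) '' Set.univ) := h1
  refine Finite.of_injective (fun o : Quotient (orbitRel G X) =>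
    (⟨orbit G o.out, ⟨o.out, trivial, rfl⟩⟩ : ↥((fun x : X => orbit G x) '' Set.univ))) ?_
  intro o o' h
  have h2 : orbit G o.out = orbit G o'.out := congrArg Subtype.val h
  rw [← Quotient.out_eq o, ← Quotient.out_eq o']
  apply Quotient.sound
  change o.out ∈ orbit G o'.out
  rw [← h2]
  exact mem_orbit_self _

theorem l2c_main (hG : GrH (Set.univ : Set Y) s t G (Set.univ : Set X))
    (hN : ∀ f : HS X, f ∈ N ↔ ∀ y : Y,
      (s y).elim 0 (fun p => f p) = (t y).elim 0 (fun p => f p)) :
    dimG G N = cR (Set.univ : Set Y) s t G (Set.univ : Set X) := by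
  classical
  have : CompleteSpace N := (l2c_closed hN).completeSpace_coe
  have : Finite (Quotient (orbitRel G X)) := l2c_finite hG
  have := Fintype.ofFinite (Quotient (orbitRel G X))
  rw [l2b_dimG (G := G) N]
  set S : Finset (Quotient (orbitRel G X)) :=
    Finset.univ.filter (fun o => l2c_go s t o.out) with hS
  set F : Quotient (orbitRel G X) → Set (Set X) := fun o => orbit G (l2c_co s t o.out) with hF
  -- the sum over the good representatives
  have e1 : ∑ o : Quotient (orbitRel G X), ‖N.starProjection (l2b_dl o.out)‖ ^ 2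
      = ∑ o ∈ S, ((l2c_co s t o.out).ncard : ℝ)⁻¹ := by
    rw [hS, Finset.sum_filter]
    refine Finset.sum_congr rfl fun o _ => ?_
    by_cases h : l2c_go s t o.out
    · rw [if_pos h, l2c_proj_good hN h]
    · rw [if_neg h, l2c_proj_bad hN h]
  -- the orbits of good components
  have e2 : cR (Set.univ : Set Y) s t G (Set.univ : Set X) = (S.image F).card := by
    unfold cR oc
    rw [← Set.ncard_coe_finset]
    congr 1
    ext Z
    rw [Finset.coe_image]
    constructor
    · rintro ⟨C, ⟨p, _, hp, rfl⟩, rfl⟩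
      obtain ⟨g, hg⟩ := l2c_rep (G := G) p
      refine ⟨Quotient.mk (orbitRel G X) p, ?_, ?_⟩
      · rw [hS]
        simp only [Finset.coe_filter, Finset.mem_univ, true_and, Set.mem_ofPred_eq]
        have h1 := l2c_go_smul hG g⁻¹ hp
        rw [← hg, inv_smul_smul] at h1
        exact h1
      · simp only [hF]
        have h1 := l2c_co_smul hG g (Quotient.mk (orbitRel G X) p).out
        rw [hg] at h1
        change orbit G (l2c_co s t (Quotient.mk (orbitRel G X) p).out) = orbit G (l2c_co s t p)
        rw [h1]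
        exact (orbit_smul g _).symm
    · rintro ⟨o, ho, rfl⟩
      rw [hS] at ho
      simp only [Finset.coe_filter, Finset.mem_univ, true_and, Set.mem_ofPred_eq] at ho
      exact ⟨l2c_co s t o.out, ⟨o.out, trivial, ho, rfl⟩, rfl⟩
  rw [e1, e2, ← Finset.sum_fiberwise_of_maps_to (t := S.image F) (g := F)
    (fun o ho => Finset.mem_image_of_mem F ho)]
  rw [Finset.cast_card]
  refine Finset.sum_congr rfl fun Z hZ => ?_
  obtain ⟨o0, ho0, rfl⟩ := Finset.mem_image.1 hZ
  have hgo0 : l2c_go s t o0.out := by
    rw [hS] at ho0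
    simpa using ho0
  set C : Set X := l2c_co s t o0.out with hC
  have hCfin : C.Finite := hgo0.1
  -- every fibre is in bijection with the component
  have hfib : ∀ o, o ∈ S.filter (fun o => F o = F o0) ↔ ∃ q ∈ C, Quotient.mk (orbitRel G X) q = o := by
    intro o
    rw [Finset.mem_filter, hS]
    simp only [Finset.mem_filter, Finset.mem_univ, true_and, hF]
    constructor
    · rintro ⟨_, h2⟩
      have h3 : l2c_co s t o.out ∈ orbit G C := by
        rw [hC, ← h2]
        exact mem_orbit_self _
      obtain ⟨g, hg⟩ := h3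
      have h4 : o.out ∈ g • C := by
        change g • C = l2c_co s t o.out at hg
        rw [hg]
        exact l2c_mem_self _
      rw [Set.mem_smul_set_iff_inv_smul_mem] at h4
      refine ⟨g⁻¹ • o.out, h4, ?_⟩
      rw [← Quotient.out_eq o]
      apply Quotient.sound
      exact ⟨g⁻¹, by rw [Quotient.out_eq]⟩
    · rintro ⟨q, hq, rfl⟩
      obtain ⟨g, hg⟩ := l2c_rep (G := G) q
      have h1 : l2c_go s t q := l2c_go_of_mem hq hgo0
      have h2 := l2c_go_smul hG g⁻¹ h1
      have h3 : g⁻¹ • q = (Quotient.mk (orbitRel G X) q).out := by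
        rw [inv_smul_eq_iff, hg]
      rw [h3] at h2
      refine ⟨h2, ?_⟩
      have h4 := l2c_co_smul hG g⁻¹ q
      rw [h3, l2c_co_eq hq] at h4
      change orbit G (l2c_co s t (Quotient.mk (orbitRel G X) q).out) = orbit G (l2c_co s t o0.out)
      rw [h4]
      exact orbit_smul g⁻¹ _
  have hinj : Set.InjOn (fun q : X => Quotient.mk (orbitRel G X) q) C := by
    intro q hq q' hq' h
    have h1 : (orbitRel G X).r q q' := Quotient.exact h
    obtain ⟨g, hg⟩ := h1
    change g • q' = q at hg
    have h2 : g • C = C := by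
      have h3 := l2c_co_smul hG g q'
      rw [hg, l2c_co_eq hq, l2c_co_eq hq'] at h3
      exact h3.symm
    have h4 := hG.triv o0.out trivial hgo0 g h2
    rw [h4, one_smul] at hg
    exact hg.symm
  have hcard : (S.filter (fun o => F o = F o0)).card = C.ncard := by
    rw [← Set.ncard_coe_finset, ← hinj.ncard_image]
    congr 1
    ext o
    rw [Finset.mem_coe, hfib]
    rfl
  have hval : ∀ o ∈ S.filter (fun o => F o = F o0),
      ((l2c_co s t o.out).ncard : ℝ)⁻¹ = ((C.ncard : ℕ) : ℝ)⁻¹ := by
    intro o ho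
    rw [Finset.mem_filter] at ho
    have h3 : l2c_co s t o.out ∈ orbit G C := by
      have h2 : orbit G (l2c_co s t o.out) = orbit G (l2c_co s t o0.out) := ho.2
      rw [hC, ← h2]
      exact mem_orbit_self _
    obtain ⟨g, hg⟩ := h3
    change g • C = l2c_co s t o.out at hg
    rw [← hg, Set.ncard_smul_set]
  rw [Finset.sum_congr rfl hval, Finset.sum_const, hcard, nsmul_eq_mul]
  have hpos : 0 < C.ncard := (Set.ncard_pos hCfin).2 ⟨_, l2c_mem_self _⟩
  have hpos' : (0 : ℝ) < C.ncard := by exact_mod_cast hpos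
  rw [mul_inv_cancel₀ hpos'.ne']

end

theorem st_L2C : ST_L2C := by
  intro G _ Y X _ _ s t hG N hN
  exact l2c_main hG hN

end Pool.Agent.Helper93.HZ
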