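import Pool.Agent.Helper74.HZ.RSYM

/-!
# HZ: RCON, the resolved complex is connected (4.4)
-/

set_option autoImplicit false

open MulAction Pointwise

namespace Pool.Agent.Helper93.HZ

variable {G : Type} [Group G]

/-! ### Fields -/

theorem rcon_adj {U : Type} {T : SimpleGraph U} {N : U → U} (hN : IsField T N) {u : U}
    (h : N u ≠ u) : T.Adj u (N u) := by
  rcases hN.1 u with h1 | h1
  · exact absurd h1 h
  · exact h1

theorem rcon_back {U : Type} {T : SimpleGraph U} {N : U → U} (hN : IsField T N) {u w : U}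
    (hadj : T.Adj u w) (h : N u ≠ w) : N w = u := by
  by_contra h1
  exact h ((hN.2 u w hadj).2 h1)

theorem rcon_forth {U : Type} {T : SimpleGraph U} {N : U → U} (hN : IsField T N) {u w : U}
    (hadj : T.Adj u w) (h : N u = w) : N w ≠ u := (hN.2 u w hadj).1 h

/-- one step along the path `I(N,N')` -/
theorem rcon_step {U : Type} {T : SimpleGraph U} {N N' : U → U} (hN : IsField T N)
    (hN' : IsField T N') {u : U} (h : OnI N N' u) : OnI N N' (N u) := by
  by_cases hu : N u = u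
  · rw [hu]
    exact h
  · have hadj := rcon_adj hN hu
    have h1 : N' u ≠ N u := fun e => hu (h e.symm)
    have h2 := rcon_back hN' hadj h1
    have h3 := rcon_forth hN hadj rfl
    intro e
    rw [h2] at e
    exact absurd e h3

theorem rcon_iter {U : Type} {T : SimpleGraph U} {N N' : U → U} (hN : IsField T N)
    (hN' : IsField T N') {u : U} (h : OnI N N' u) (k : ℕ) : OnI N N' (N^[k] u) := by
  induction k with
  | zero => exact h
  | succ k ih =>
    rw [Function.iterate_succ_apply']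
    exact rcon_step hN hN' ih

/-- the axis is invariant under the step towards the end -/
theorem rcon_axis {U : Type} {T : SimpleGraph U} {N M : U → U} (hN : IsField T N)
    (hM : IsField T M) (hn : ∀ u, N u ≠ u) {u : U} (h : N u ≠ M u) :
    M (N u) = u ∧ N (N u) ≠ M (N u) := by
  have hadj := rcon_adj hN (hn u)
  have h2 := rcon_back hM hadj (fun e => h e.symm)
  refine ⟨h2, ?_⟩
  rw [h2]
  exact rcon_forth hN hadj rfl

theorem rcon_axis_iter {U : Type} {T : SimpleGraph U} {N M : U → U} (hN : IsField T N)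
    (hM : IsField T M) (hn : ∀ u, N u ≠ u) {u : U} (h : N u ≠ M u) (k : ℕ) :
    N (N^[k] u) ≠ M (N^[k] u) := by
  induction k with
  | zero => exact h
  | succ k ih =>
    rw [Function.iterate_succ_apply']
    exact (rcon_axis hN hM hn ih).2

/-- a ray towards the end of `N` meets the axis -/
theorem rcon_ray (hA : ST_TFA) {U : Type} {T : SimpleGraph U} (hT : T.IsTree) {N M : U → U}
    (hN : IsField T N) (hM : IsField T M) (hne : N ≠ M) (u : U) :
    ∃ k : ℕ, N (N^[k] u) ≠ M (N^[k] u) := by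
  by_contra h
  push Not at h
  exact hne ((hA U T hT).2 N M hN hM ⟨u, fun k => (h k).symm⟩)

variable {D : Setup G} {K : Cx G} {P : Pts D K} {Q : Thr D K P}

/-- connectedness relation -/
abbrev rcon_R (Q : Thr D K P) : AV Q → AV Q → Prop := Relation.ReflTransGen (aadj Q)

theorem rcon_Rsymm {p q : AV Q} (h : rcon_R Q p q) : rcon_R Q q p := by
  induction h with
  | refl => exact Relation.ReflTransGen.refl
  | tail _ h2 ih => exact Relation.ReflTransGen.head (rsym_symm h2) ih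

theorem rcon_nm (P : Pts D K) {v : K.V} (hv : ¬ EllV D K v) : P.N v ≠ P.M v := by
  obtain ⟨_, _, _, u, hu⟩ := P.hyp v hv
  intro e
  exact hu (by rw [e])

/-- the line vertices -/
abbrev rcon_L (Q : Thr D K P) (v : K.V) (u : D.U) : AV Q := tk Q (.l u (P.N v u) v)

theorem rcon_line_step {v : K.V} (hv : ¬ EllV D K v) {u : D.U} (hu : P.N v u ≠ P.M v u) :
    rcon_R Q (rcon_L Q v u) (rcon_L Q v (P.N v u)) := by
  obtain ⟨h1, h2⟩ := rcon_axis (P.fN v) (P.fM v) (P.hyp v hv).1 hu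
  -- `L u = tk (l (N u) u v) = tk (l (N u) (M (N u)) v)`, adjacent to `L (N u)`
  have e : rcon_L Q v u = tk Q (.l (P.N v u) (P.M v (P.N v u)) v) := by
    rw [h1]
    exact rsym_tk_eq Q (TRel.swL _ _ _)
  rw [e]
  exact Relation.ReflTransGen.single (Or.inr ⟨v, P.N v u, hv, h2, Or.inr ⟨rfl, rfl⟩⟩)

theorem rcon_line_iter {v : K.V} (hv : ¬ EllV D K v) {u : D.U} (hu : P.N v u ≠ P.M v u)
    (k : ℕ) : rcon_R Q (rcon_L Q v u) (rcon_L Q v ((P.N v)^[k] u)) := by
  induction k with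
  | zero => exact Relation.ReflTransGen.refl
  | succ k ih =>
    rw [Function.iterate_succ_apply']
    exact ih.trans (rcon_line_step hv (rcon_axis_iter (P.fN v) (P.fM v) (P.hyp v hv).1 hu k))

theorem rcon_line_back {v : K.V} (hv : ¬ EllV D K v) (k : ℕ) : ∀ {u : D.U},
    P.N v u ≠ P.M v u → rcon_R Q (rcon_L Q v u) (rcon_L Q v ((P.M v)^[k] u)) := by
  induction k with
  | zero => exact fun _ => Relation.ReflTransGen.refl
  | succ k ih =>
    intro u hu
    rw [Function.iterate_succ_apply]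
    obtain ⟨h1, h2⟩ := rcon_axis (P.fM v) (P.fN v) (P.hyp v hv).2.1 (fun e => hu e.symm)
    have h3 := rcon_line_step (Q := Q) hv (fun e => h2 e.symm)
    rw [h1] at h3
    exact (rcon_Rsymm h3).trans (ih (fun e => h2 e.symm))

/-- all vertices of a line are connected -/
theorem rcon_line (hC : ST_TFC) {v : K.V} (hv : ¬ EllV D K v) {u w : D.U}
    (hu : P.N v u ≠ P.M v u) (hw : P.N v w ≠ P.M v w) :
    rcon_R Q (rcon_L Q v u) (rcon_L Q v w) := by
  obtain ⟨k, h | h⟩ := (hC D.U D.T D.tree (P.N v) (P.M v) (P.fN v) (P.fM v)).1 u w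
    (fun e => absurd e hu) (fun e => absurd e hw)
  · rw [h]
    exact rcon_line_iter hv hu k
  · rw [h]
    exact rcon_line_back hv k hu

/-- `p` is in the component `κ(x)` -/
def rcon_C (Q : Thr D K P) (x : K.V) (p : AV Q) : Prop :=
  (EllV D K x ∧ rcon_R Q (Sum.inl x) p) ∨
    (¬ EllV D K x ∧ ∃ u, P.N x u ≠ P.M x u ∧ rcon_R Q (rcon_L Q x u) p)

theorem rcon_C_trans {x : K.V} {p q : AV Q} (h : rcon_C Q x p) (hpq : rcon_R Q p q) :
    rcon_C Q x q := by
  rcases h with ⟨h1, h2⟩ | ⟨h1, u, h2, h3⟩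
  · exact Or.inl ⟨h1, h2.trans hpq⟩
  · exact Or.inr ⟨h1, u, h2, h3.trans hpq⟩

theorem rcon_C_uniq (hC : ST_TFC) {x : K.V} {p q : AV Q} (h : rcon_C Q x p)
    (h' : rcon_C Q x q) : rcon_R Q p q := by
  rcases h with ⟨h1, h2⟩ | ⟨h1, u, h2, h3⟩
  · rcases h' with ⟨_, h5⟩ | ⟨h4, _⟩
    · exact (rcon_Rsymm h2).trans h5
    · exact absurd h1 h4
  · rcases h' with ⟨h4, _⟩ | ⟨_, w, h5, h6⟩
    · exact absurd h4 h1
    · exact ((rcon_Rsymm h3).trans (rcon_line hC h1 h2 h5)).trans h6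

/-- one step towards `y` along the positions of a dart -/
theorem rcon_pos_step {x y : K.V} (hxy : K.adj x y)
    (hd : P.N x = P.N y → ∃ u', P.N x u' = u') {u : D.U} (hu : OnI (P.N x) (P.N y) u) :
    rcon_R Q (pos Q x y u) (pos Q x y (P.N y u)) := by
  by_cases h : P.N y u = u
  · rw [h]
  · have hadj := rcon_adj (P.fN y) h
    have h1 : P.N x u ≠ P.N y u := fun e => h (e.symm.trans (hu e))
    have h2 := rcon_back (P.fN x) hadj h1
    have hne : P.N y u ≠ u := h
    have e : pos Q y x u = pos Q x y (P.N y u) := by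
      unfold pos
      rw [if_neg h, h2, if_neg (fun e => hne e.symm)]
      exact (rsym_tk_eq Q (TRel.swU _ _ _ _)).trans (rsym_tk_eq Q (TRel.swV _ _ _ _))
    rw [← e]
    exact Relation.ReflTransGen.single (Or.inl ⟨x, y, u, hxy, hd, hu, rfl, rfl⟩)

theorem rcon_pos_step' {x y : K.V} (hxy : K.adj x y)
    (hd : P.N x = P.N y → ∃ u', P.N x u' = u') {u : D.U} (hu : OnI (P.N x) (P.N y) u) :
    rcon_R Q (pos Q x y u) (pos Q x y (P.N x u)) := by
  by_cases h : P.N x u = u
  · rw [h]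
  · have hadj := rcon_adj (P.fN x) h
    have h1 : P.N y u ≠ P.N x u := fun e => h (hu e.symm)
    have h2 := rcon_back (P.fN y) hadj h1
    have h3 := rcon_pos_step (Q := Q) hxy hd (rcon_step (P.fN x) (P.fN y) hu)
    rw [h2] at h3
    exact rcon_Rsymm h3

theorem rcon_onI_symm {U : Type} {N N' : U → U} {u : U} (h : OnI N N' u) : OnI N' N u :=
  rsym_onI h

/-- all positions of a dart are connected -/
theorem rcon_pos (hC : ST_TFC) {x y : K.V} (hxy : K.adj x y)
    (hd : P.N x = P.N y → ∃ u', P.N x u' = u') {u w : D.U} (hu : OnI (P.N x) (P.N y) u)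
    (hw : OnI (P.N x) (P.N y) w) : rcon_R Q (pos Q x y u) (pos Q x y w) := by
  obtain ⟨k, h | h⟩ := (hC D.U D.T D.tree (P.N x) (P.N y) (P.fN x) (P.fN y)).1 u w hu hw
  · subst h
    clear hw
    induction k with
    | zero => exact Relation.ReflTransGen.refl
    | succ k ih =>
      rw [Function.iterate_succ_apply']
      exact ih.trans (rcon_pos_step' hxy hd (rcon_iter (P.fN x) (P.fN y) hu k))
  · subst h
    clear hw
    induction k with
    | zero => exact Relation.ReflTransGen.refl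
    | succ k ih =>
      rw [Function.iterate_succ_apply']
      exact ih.trans (rcon_pos_step hxy hd
        (rsym_onI (rcon_iter (P.fN y) (P.fN x) (rsym_onI hu) k)))

/-- if an elliptic and a hyperbolic vertex are given, only `1` fixes both -/
theorem rcon_free (P : Pts D K) (hD : ST_TFD) {x y : K.V} (hx : ¬ EllV D K x) (hy : EllV D K y) :
    Fr K x y := by
  intro g hgx hgy
  obtain ⟨u, hu⟩ := hy
  obtain ⟨_, _, ⟨z, k, hz, _, _, _⟩, _⟩ := P.hyp x hx
  have hg : g ∈ Subgroup.zpowers z := by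
    rw [← hz]
    exact hgx
  obtain ⟨n, rfl⟩ := Subgroup.mem_zpowers_iff.1 hg
  have hzne : ¬ Ell D z := by
    rintro ⟨w, hw⟩
    apply hx
    refine ⟨w, fun g hg' => ?_⟩
    have hg'' : g ∈ Subgroup.zpowers z := by
      rw [← hz]
      exact hg'
    obtain ⟨i, rfl⟩ := Subgroup.mem_zpowers_iff.1 hg''
    have h1 : z ∈ stabilizer G w := hw
    exact (stabilizer G w).zpow_mem h1 i
  have hfix := hu _ hgy
  rcases lt_trichotomy n 0 with hn | hn | hn
  · exfalso
    obtain ⟨m, hm⟩ := Int.eq_ofNat_of_zero_le (by omega : 0 ≤ -n)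
    refine hzne ((hD G D z).1 m (by omega) ⟨u, ?_⟩)
    have h1 : z ^ n ∈ stabilizer G u := hfix
    have h2 := (stabilizer G u).inv_mem h1
    rw [← zpow_neg, hm] at h2
    simpa using h2
  · rw [hn, zpow_zero]
  · exfalso
    obtain ⟨m, hm⟩ := Int.eq_ofNat_of_zero_le hn.le
    refine hzne ((hD G D z).1 m (by omega) ⟨u, ?_⟩)
    rw [hm] at hfix
    simpa using hfix

/-- the positions of a dart are in the component of `x` -/
theorem rcon_C_pos (hA : ST_TFA) (hC : ST_TFC) (hD : ST_TFD) {x y : K.V} (hxy : K.adj x y)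
    (hd : P.N x = P.N y → ∃ u', P.N x u' = u') {u : D.U} (hu : OnI (P.N x) (P.N y) u) :
    rcon_C Q x (pos Q x y u) := by
  obtain ⟨u1, h1, h2⟩ : ∃ u1, OnI (P.N x) (P.N y) u1 ∧ rcon_C Q x (pos Q x y u1) := by
    by_cases hx : EllV D K x
    · obtain ⟨u1, h1⟩ := P.ell x hx
      refine ⟨u1, fun _ => h1, Or.inl ⟨hx, ?_⟩⟩
      unfold pos
      rw [if_pos h1]
    · have hhyp := P.hyp x hx
      have hne : P.N x ≠ P.N y := by
        intro e
        obtain ⟨u', hu'⟩ := hd e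
        exact hhyp.1 u' hu'
      by_cases hf : Fr K x y
      · obtain ⟨h3, h4⟩ := Q.hyp x y hxy hf hx hne
        refine ⟨Q.Q x y, h3, Or.inr ⟨hx, Q.Q x y, h4, ?_⟩⟩
        have e : pos Q x y (Q.Q x y) = rcon_L Q x (Q.Q x y) := by
          unfold pos
          rw [if_neg (hhyp.1 _)]
          exact rsym_tk_eq Q (TRel.t2 x y 0 hxy hf hx hne)
        rw [e]
      · have hy : ¬ EllV D K y := fun hy => hf (rcon_free P hD hx hy)
        obtain ⟨k, hk⟩ := rcon_ray hA D.tree (P.fN x) (P.fM x) (rcon_nm P hx) u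
        have h3 := rcon_iter (P.fN x) (P.fN y) hu k
        refine ⟨(P.N x)^[k] u, h3, Or.inr ⟨hx, (P.N x)^[k] u, hk, ?_⟩⟩
        have h4 := (rcon_axis (P.fN x) (P.fM x) hhyp.1 hk).1
        have e : pos Q x y ((P.N x)^[k] u) = rcon_L Q x ((P.N x)^[k] u) := by
          unfold pos
          rw [if_neg (hhyp.1 _)]
          exact rsym_tk_eq Q (TRel.t4 x y _ _ hxy hne hf hx hy ⟨rfl, h4, hhyp.1 _⟩)
        rw [e]
  exact rcon_C_trans h2 (rcon_pos hC hxy hd h1 hu)

/-- adjacent vertices of `K` are in one component -/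
theorem rcon_C_adj (hA : ST_TFA) (hC : ST_TFC) (hD : ST_TFD) {x y : K.V} (hxy : K.adj x y) :
    ∃ p : AV Q, rcon_C Q x p ∧ rcon_C Q y p := by
  by_cases hd : P.N x = P.N y → ∃ u', P.N x u' = u'
  · obtain ⟨u, hu⟩ := (hC D.U D.T D.tree (P.N x) (P.N y) (P.fN x) (P.fN y)).2 hd
    refine ⟨pos Q x y u, rcon_C_pos hA hC hD hxy hd hu, ?_⟩
    have h1 : rcon_C Q y (pos Q y x u) := rcon_C_pos hA hC hD (K.symm _ _ hxy)
      (fun e => by rw [e]; exact hd e.symm) (rsym_onI hu)
    exact rcon_C_trans h1 (Relation.ReflTransGen.single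
      (rsym_symm (Or.inl ⟨x, y, u, hxy, hd, hu, rfl, rfl⟩)))
  · push Not at hd
    obtain ⟨he, hfix⟩ := hd
    have hx : ¬ EllV D K x := fun h => by
      obtain ⟨u, hu⟩ := P.ell x h
      exact hfix u hu
    have hy : ¬ EllV D K y := fun h => by
      obtain ⟨u, hu⟩ := P.ell y h
      exact hfix u (by rw [he]; exact hu)
    obtain ⟨k, hk⟩ := rcon_ray hA D.tree (P.fN x) (P.fM x) (rcon_nm P hx) D.u0
    obtain ⟨l, hl⟩ := rcon_ray hA D.tree (P.fN y) (P.fM y) (rcon_nm P hy) ((P.N y)^[k] D.u0)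
    set u := (P.N y)^[l] ((P.N y)^[k] D.u0) with hu
    have hux : P.N x u ≠ P.M x u := by
      rw [hu, ← he]
      exact rcon_axis_iter (P.fN x) (P.fM x) (P.hyp x hx).1 hk l
    have ax : Ax P x u (P.N y u) := by
      refine ⟨by rw [he], ?_, (P.hyp x hx).1 u⟩
      have := (rcon_axis (P.fN x) (P.fM x) (P.hyp x hx).1 hux).1
      rwa [he] at this
    have ay : Ax P y u (P.N y u) :=
      ⟨rfl, (rcon_axis (P.fN y) (P.fM y) (P.hyp y hy).1 hl).1, (P.hyp y hy).1 u⟩
    refine ⟨rcon_L Q x u, Or.inr ⟨hx, u, hux, Relation.ReflTransGen.refl⟩,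
      Or.inr ⟨hy, u, hl, ?_⟩⟩
    have e : rcon_L Q x u = rcon_L Q y u := by
      change tk Q (.l u (P.N x u) x) = tk Q (.l u (P.N y u) y)
      rw [he]
      exact rsym_tk_eq Q (TRel.t3 x y u _ hxy he hx hy ax ay)
    rw [e]

theorem rcon_C_path (hA : ST_TFA) (hC : ST_TFC) (hD : ST_TFD) {x y : K.V}
    (h : Relation.ReflTransGen K.adj x y) : ∀ {p q : AV Q}, rcon_C Q x p → rcon_C Q y q →
      rcon_R Q p q := by
  induction h with
  | refl => exact fun hp hq => rcon_C_uniq hC hp hq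
  | tail _ h2 ih =>
    intro p q hp hq
    obtain ⟨r, hr1, hr2⟩ := rcon_C_adj (Q := Q) hA hC hD h2
    exact (ih hp hr1).trans (rcon_C_uniq hC hr2 hq)

theorem rcon_C_ex (hA : ST_TFA) (hC : ST_TFC) (hD : ST_TFD) {p p' : AV Q} (h : aadj Q p p') :
    ∃ x, rcon_C Q x p := by
  rcases h with ⟨x, y, u, h1, h2, h3, h4, h5⟩ | ⟨v, u, h1, h2, h3⟩
  · refine ⟨x, ?_⟩
    rw [h4]
    exact rcon_C_pos hA hC hD h1 h2 h3
  · refine ⟨v, Or.inr ⟨h1, u, h2, ?_⟩⟩
    rcases h3 with ⟨h4, h5⟩ | ⟨h4, h5⟩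
    · rw [h4]
    · rw [h5]
      exact Relation.ReflTransGen.single (Or.inr ⟨v, u, h1, h2, Or.inl ⟨rfl, rfl⟩⟩)

theorem st_RCON (hA : ST_TFA) (hC : ST_TFC) (hD : ST_TFD) : ST_RCON := by
  intro G _ D K P Q p p' q q' hp hq
  obtain ⟨x, hx⟩ := rcon_C_ex hA hC hD hp
  obtain ⟨y, hy⟩ := rcon_C_ex hA hC hD hq
  exact rcon_C_path hA hC hD (K.conn x y) hx hy

end Pool.Agent.Helper93.HZ
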