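import Pool.Agent.Helper93.HZ.Spec2

/-!
# HZ: RSYM, symmetry properties of the resolved complex
-/

set_option autoImplicit false

open MulAction Pointwise

namespace Pool.Agent.Helper93.HZ

variable {G : Type} [Group G]

/-- the location of a token -/
def rsym_loc {U V : Type} : Tk U V → Set U
  | .e u w _ _ => {u, w}
  | .l u w _ => {u, w}

theorem rsym_loc_rel {D : Setup G} {K : Cx G} {P : Pts D K} (Q : Thr D K P)
    (τ τ' : Tk D.U K.V) (h : TRel Q τ τ') : rsym_loc τ = rsym_loc τ' := by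
  cases h with
  | swU u w x y => exact Set.pair_comm u w
  | swV u w x y => rfl
  | swL u w v => exact Set.pair_comm u w
  | t1 x y z u w h1 h2 h3 h4 h5 => rfl
  | t2 v y k h1 h2 h3 h4 => rfl
  | t3 v v' u w h1 h2 h3 h4 h5 h6 => rfl
  | t4 v v' u w h1 h2 h3 h4 h5 h6 => rfl

/-- the location of a track -/
def rsym_locq {D : Setup G} {K : Cx G} {P : Pts D K} (Q : Thr D K P) (q : Quot (TRel Q)) :
    Set D.U := Quot.lift rsym_loc (rsym_loc_rel Q) q

theorem rsym_tk_loc {D : Setup G} {K : Cx G} {P : Pts D K} (Q : Thr D K P) {τ τ' : Tk D.U K.V}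
    (h : tk Q τ = tk Q τ') : rsym_loc τ = rsym_loc τ' := by
  unfold tk at h
  have h1 := Sum.inr_injective h
  exact congrArg (rsym_locq Q) h1

theorem rsym_pair {U : Type} {u a b : U} (h : ({u, a} : Set U) = {u, b}) : a = b := by
  have h1 : a ∈ ({u, b} : Set U) := h ▸ (by simp)
  have h2 : b ∈ ({u, a} : Set U) := h.symm ▸ (by simp)
  rcases h1 with h1 | h1
  · rcases h2 with h2 | h2
    · rw [h1, h2]
    · exact h2.symm
  · exact h1

theorem rsym_tk_eq {D : Setup G} {K : Cx G} {P : Pts D K} (Q : Thr D K P) {τ τ' : Tk D.U K.V}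
    (h : TRel Q τ τ') : tk Q τ = tk Q τ' := by
  unfold tk
  rw [Quot.sound h]

theorem rsym_onI {U : Type} {N N' : U → U} {u : U} (h : OnI N N' u) : OnI N' N u :=
  fun h1 => h1.trans (h h1.symm)

theorem rsym_center_rot {U : Type} {N₁ N₂ N₃ : U → U} {c : U} (h : IsCenter N₁ N₂ N₃ c) :
    IsCenter N₂ N₃ N₁ c := by
  obtain ⟨h1, h2, h3⟩ := h
  exact ⟨h2, fun e => e.trans (h3 e.symm), fun e => e.trans (h1 e.symm)⟩

theorem rsym_center_swap {U : Type} {N₁ N₂ N₃ : U → U} {c : U} (h : IsCenter N₁ N₂ N₃ c) :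
    IsCenter N₂ N₁ N₃ c := by
  obtain ⟨h1, h2, h3⟩ := h
  exact ⟨fun e => e.trans (h1 e.symm), h3, h2⟩

theorem rsym_symm {D : Setup G} {K : Cx G} {P : Pts D K} {Q : Thr D K P} {p q : AV Q}
    (h : aadj Q p q) : aadj Q q p := by
  rcases h with ⟨x, y, u, h1, h2, h3, h4, h5⟩ | ⟨v, u, h1, h2, h3⟩
  · refine Or.inl ⟨y, x, u, K.symm _ _ h1, fun e => ?_, rsym_onI h3, h5, h4⟩
    rw [e]
    exact h2 e.symm
  · exact Or.inr ⟨v, u, h1, h2, h3.symm⟩

theorem rsym_irrefl {D : Setup G} {K : Cx G} {P : Pts D K} {Q : Thr D K P} (p : AV Q) :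
    ¬ aadj Q p p := by
  rintro (⟨x, y, u, h1, h2, h3, h4, h5⟩ | ⟨v, u, h1, h2, h3⟩)
  · rw [h4] at h5
    unfold pos at h5
    by_cases hx : P.N x u = u
    · by_cases hy : P.N y u = u
      · rw [if_pos hx, if_pos hy] at h5
        have h6 : x = y := Sum.inl_injective h5
        rw [h6] at h1
        exact K.irrefl _ h1
      · rw [if_pos hx, if_neg hy] at h5
        exact absurd h5 (by unfold tk; exact Sum.inl_ne_inr)
    · by_cases hy : P.N y u = u
      · rw [if_neg hx, if_pos hy] at h5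
        exact absurd h5 (by unfold tk; exact Sum.inr_ne_inl)
      · rw [if_neg hx, if_neg hy] at h5
        have h6 := rsym_tk_loc Q h5
        exact hx (h3 (rsym_pair h6))
  · have h4 : tk Q (.l u (P.N v u) v) = tk Q (.l u (P.M v u) v) := by
      rcases h3 with ⟨h5, h6⟩ | ⟨h5, h6⟩
      · rw [← h5, ← h6]
      · rw [← h5, ← h6]
    exact h2 (rsym_pair (rsym_tk_loc Q h4))

/-- the position of a side of a triangle at the center -/
theorem rsym_pos {D : Setup G} {K : Cx G} {P : Pts D K} (Q : Thr D K P) {x y z : K.V} {c : D.U}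
    (h : K.tri x y z) (hc : IsCenter (P.N x) (P.N y) (P.N z) c) : pos Q x y c = pos Q x z c := by
  unfold pos
  by_cases hx : P.N x c = c
  · rw [if_pos hx, if_pos hx]
  · rw [if_neg hx, if_neg hx]
    have hadj : D.T.Adj c (P.N x c) := by
      rcases (P.fN x).1 c with h1 | h1
      · exact absurd h1 hx
      · exact h1
    have key : ∀ y' : K.V, P.N y' c ≠ P.N x c → P.N y' (P.N x c) = c := by
      intro y' h1
      by_contra h2
      exact h1 (((P.fN y').2 c (P.N x c) hadj).2 h2)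
    refine rsym_tk_eq Q (TRel.t1 x y z c (P.N x c) h hadj rfl (key y ?_) (key z ?_))
    · intro e
      exact hx (hc.1 e.symm)
    · intro e
      exact hx (hc.2.2 e.symm)

theorem rsym_tri_adj {D : Setup G} {K : Cx G} {P : Pts D K} {Q : Thr D K P} {p q r : AV Q}
    (h : atri Q p q r) : aadj Q p q := by
  obtain ⟨x, y, z, c, h1, h2, h3, h4, h5⟩ := h
  refine Or.inl ⟨x, y, c, K.tri_adj _ _ _ h1, fun e => ⟨c, h2.1 (by rw [e])⟩, h2.1, h3, ?_⟩
  rw [h4]
  exact rsym_pos Q (K.tri_rot _ _ _ h1) (rsym_center_rot h2)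

theorem st_RSYM : ST_RSYM := by
  intro G _ D K P Q
  refine ⟨fun p q h => rsym_symm h, rsym_irrefl, fun p q r h => rsym_tri_adj h, ?_, ?_, ?_, ?_⟩
  · rintro p q r ⟨x, y, z, c, h1, h2, h3, h4, h5⟩
    exact ⟨y, z, x, c, K.tri_rot _ _ _ h1, rsym_center_rot h2, h4, h5, h3⟩
  · rintro p q r ⟨x, y, z, c, h1, h2, h3, h4, h5⟩
    refine ⟨y, x, z, c, K.tri_swap _ _ _ h1, rsym_center_swap h2, ?_, ?_, ?_⟩
    · rw [h4]
      exact rsym_pos Q (K.tri_rot _ _ _ h1) (rsym_center_rot h2)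
    · rw [h3]
      exact rsym_pos Q h1 h2
    · rw [h5]
      exact rsym_pos Q (K.tri_rot _ _ _ (K.tri_rot _ _ _ h1))
        (rsym_center_rot (rsym_center_rot h2))
  · rintro g p q (⟨x, y, u, h1, h2, h3, h4, h5⟩ | ⟨v, u, h1, h2, h3⟩)
    · refine Or.inl ⟨g • x, g • y, g • u, K.smul_adj g _ _ h1, ?_, ?_, ?_, ?_⟩
      · intro e
        obtain ⟨u', hu'⟩ := h2 ((P.N_eq_smul g).1 e)
        exact ⟨g • u', by rw [P.eN, hu']⟩
      · intro e
        rw [P.eN, P.eN] at e
        rw [P.eN, h3 (smul_left_cancel g e)]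
      · rw [pos_smul, h4]
      · rw [pos_smul, h5]
    · refine Or.inr ⟨g • v, g • u, fun h => h1 ((EllV_smul_iff g).1 h), ?_, ?_⟩
      · rw [P.eN, P.eM]
        intro h
        exact h2 (smul_left_cancel g h)
      · rw [P.eN, P.eM]
        rcases h3 with ⟨h4, h5⟩ | ⟨h4, h5⟩
        · left
          rw [h4, h5]
          exact ⟨rfl, rfl⟩
        · right
          rw [h4, h5]
          exact ⟨rfl, rfl⟩
  · rintro g p q r ⟨x, y, z, c, h1, h2, h3, h4, h5⟩
    refine ⟨g • x, g • y, g • z, g • c, K.smul_tri g _ _ _ h1, ?_, ?_, ?_, ?_⟩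
    · refine ⟨?_, ?_, ?_⟩
      · intro e
        rw [P.eN, P.eN] at e
        rw [P.eN, h2.1 (smul_left_cancel g e)]
      · intro e
        rw [P.eN, P.eN] at e
        rw [P.eN, h2.2.1 (smul_left_cancel g e)]
      · intro e
        rw [P.eN, P.eN] at e
        rw [P.eN, h2.2.2 (smul_left_cancel g e)]
    · rw [pos_smul, h3]
    · rw [pos_smul, h4]
    · rw [pos_smul, h5]

end Pool.Agent.Helper93.HZ
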